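import Pool.Agent.W845.DH.Stm

/-! Project DH, subtask DH-FW1: neighbourhoods of vertices on short cycles of optimal 1-factors. -/

set_option autoImplicit false
set_option maxHeartbeats 4000000
open scoped Classical

namespace Pool.Agent.W85.DH
open Pool.Agent.W845.DH

variable {V : Type} [Fintype V]

theorem swap_merge (hSWM : S_SWM) (D : V → V → Prop) (σ : Equiv.Perm V) (ho : Opt D σ) (u w : V)
    (h1 : D u (σ w)) (h2 : D w (σ u)) : σ.SameCycle u w := by
  by_contra h
  have h3 := (hSWM V σ u w h).2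
  have h4 := ho.2 (σ * Equiv.swap u w) (by
    intro v
    rw [Equiv.Perm.mul_apply]
    by_cases hu : v = u
    · subst hu
      rw [Equiv.swap_apply_left]
      exact h1
    · by_cases hw : v = w
      · subst hw
        rw [Equiv.swap_apply_right]
        exact h2
      · rw [Equiv.swap_apply_of_ne_of_ne hu hw]
        exact ho.1 v)
  omega

theorem four (hSWM : S_SWM) (hSW4 : S_SW4) (D : V → V → Prop) (σ : Equiv.Perm V) (ho : Opt D σ)
    (u u' w w' : V) (huu : ¬ σ.SameCycle u u')
    (h1 : D u (σ w)) (h2 : D w (σ u')) (h3 : D u' (σ w')) (h4 : D w' (σ u))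
    (a1 : ¬ σ.SameCycle u w) (a2 : ¬ σ.SameCycle u w') (a3 : ¬ σ.SameCycle u' w)
    (a4 : ¬ σ.SameCycle u' w') : False := by
  have hww : w ≠ w' := by
    rintro rfl
    exact a1 (swap_merge hSWM D σ ho u w h1 h4)
  have hne : ∀ x y : V, ¬ σ.SameCycle x y → x ≠ y := by
    rintro x y h rfl
    exact h (Equiv.Perm.SameCycle.refl _ _)
  have b0 := hne _ _ huu
  have b1 := hne _ _ a1
  have b2 := hne _ _ a2
  have b3 := hne _ _ a3
  have b4 := hne _ _ a4
  have h5 := hSW4 V σ u u' w w' huu a1 a2 a3 a4 hww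
  have h6 := ho.2 (σ * Equiv.swap u w * Equiv.swap w u' * Equiv.swap u' w') (by
    intro v
    rw [Equiv.Perm.mul_apply, Equiv.Perm.mul_apply, Equiv.Perm.mul_apply]
    by_cases c1 : v = u
    · subst c1
      rw [Equiv.swap_apply_of_ne_of_ne b0 b2, Equiv.swap_apply_of_ne_of_ne b1 b0,
        Equiv.swap_apply_left]
      exact h1
    · by_cases c2 : v = w
      · subst c2
        rw [Equiv.swap_apply_of_ne_of_ne b3.symm hww, Equiv.swap_apply_left,
          Equiv.swap_apply_of_ne_of_ne b0.symm b3]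
        exact h2
      · by_cases c3 : v = u'
        · subst c3
          rw [Equiv.swap_apply_left, Equiv.swap_apply_of_ne_of_ne hww.symm b4.symm,
            Equiv.swap_apply_of_ne_of_ne b2.symm hww.symm]
          exact h3
        · by_cases c4 : v = w'
          · subst c4
            rw [Equiv.swap_apply_right, Equiv.swap_apply_right, Equiv.swap_apply_right]
            exact h4
          · rw [Equiv.swap_apply_of_ne_of_ne c3 c4, Equiv.swap_apply_of_ne_of_ne c2 c3,
              Equiv.swap_apply_of_ne_of_ne c1 c2]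
            exact ho.1 v)
  omega

theorem cnt (P1 P2 R : Finset V) (m x y : ℝ) (h1 : m ≤ (P1.card : ℝ)) (h2 : m ≤ (P2.card : ℝ))
    (h3 : m ≤ (R.card : ℝ)) (h4 : ((P1 ∩ R).card : ℝ) ≤ x) (h5 : ((P2 ∩ R).card : ℝ) ≤ y) :
    3 * m - Fintype.card V - x - y ≤ ((P1 ∩ P2).card : ℝ) := by
  have e1 : (P1 ∪ P2).card + (P1 ∩ P2).card = P1.card + P2.card := Finset.card_union_add_card_inter _ _
  have e2 : P1 ∪ P2 ⊆ Rᶜ ∪ ((P1 ∩ R) ∪ (P2 ∩ R)) := by
    intro z hz
    simp only [Finset.mem_union, Finset.mem_compl, Finset.mem_inter] at hz ⊢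
    tauto
  have e3 := Finset.card_le_card e2
  have e4 := Finset.card_union_le (Rᶜ) ((P1 ∩ R) ∪ (P2 ∩ R))
  have e5 := Finset.card_union_le (P1 ∩ R) (P2 ∩ R)
  have e6 : (Rᶜ).card + R.card = Fintype.card V := by
    rw [Finset.card_compl]
    have := Finset.card_le_univ R
    omega
  have f1 : ((P1 ∪ P2).card : ℝ) + (P1 ∩ P2).card = P1.card + P2.card := by exact_mod_cast e1
  have f2 : ((P1 ∪ P2).card : ℝ) ≤ (Rᶜ).card + ((P1 ∩ R).card + (P2 ∩ R).card) := by
    exact_mod_cast e3.trans (e4.trans (Nat.add_le_add_left e5 _))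
  have f3 : ((Rᶜ).card : ℝ) + R.card = Fintype.card V := by exact_mod_cast e6
  linarith

theorem fw1 : S_SWM → S_SW4 → S_FW1 := by
  intro hSWM hSW4 V _ D σ ε θ u u' ho hD huu hc hc'
  have hi : ∀ u w, D u (σ w) → D w (σ u) → σ.SameCycle u w := swap_merge hSWM D σ ho
  refine ⟨hi u, ?_⟩
  obtain ⟨A, hA⟩ : ∃ A : V → Finset V, A = fun u => Finset.univ.filter (fun w => D u (σ w)) :=
    ⟨_, rfl⟩
  obtain ⟨B, hB⟩ : ∃ B : V → Finset V, B = fun u => Finset.univ.filter (fun w => D w (σ u)) :=
    ⟨_, rfl⟩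
  have hAm : ∀ u w, w ∈ A u ↔ D u (σ w) := by
    intro u w
    rw [hA]
    simp
  have hBm : ∀ u w, w ∈ B u ↔ D w (σ u) := by
    intro u w
    rw [hB]
    simp
  have hAc : ∀ u, (1 / 2 - ε) * (Fintype.card V : ℝ) ≤ ((A u).card : ℝ) := by
    intro u
    have h1 := (hD u).1
    have h2 : od D u Finset.univ = (A u).card := by
      unfold od
      rw [hA]
      symm
      apply Finset.card_bij (fun w _ => σ w)
      · intro w hw
        simp only [Finset.mem_filter, Finset.mem_univ, true_and] at hw ⊢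
        exact hw
      · intro w _ w' _ h
        exact σ.injective h
      · intro w hw
        simp only [Finset.mem_filter, Finset.mem_univ, true_and] at hw
        refine ⟨σ.symm w, ?_, ?_⟩
        · simp only [Finset.mem_filter, Finset.mem_univ, true_and, Equiv.apply_symm_apply]
          exact hw
        · simp
    rw [← h2]
    exact h1
  have hBc : ∀ u, (1 / 2 - ε) * (Fintype.card V : ℝ) ≤ ((B u).card : ℝ) := by
    intro u
    have h1 := (hD (σ u)).2
    have h2 : idg D (σ u) Finset.univ = (B u).card := by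
      unfold idg
      rw [hB]
    rw [← h2]
    exact h1
  have hcls : ∀ u w, w ∈ cls σ u ↔ σ.SameCycle u w := by
    intro u w
    unfold cls
    simp
  have hAB : ∀ u, ((A u ∩ B u).card : ℝ) ≤ (cls σ u).card := by
    intro u
    have : A u ∩ B u ⊆ cls σ u := by
      intro w hw
      rw [Finset.mem_inter, hAm, hBm] at hw
      rw [hcls]
      exact hi u w hw.1 hw.2
    exact_mod_cast Finset.card_le_card this
  have hun : ((cls σ u ∪ cls σ u').card : ℝ) ≤ 2 * θ * Fintype.card V := by
    have h1 := Finset.card_union_le (cls σ u) (cls σ u')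
    have h2 : ((cls σ u ∪ cls σ u').card : ℝ) ≤ (cls σ u).card + (cls σ u').card := by
      exact_mod_cast h1
    linarith
  have hAu := (hAB u).trans hc
  have hAu' := (hAB u').trans hc'
  have hdich : A u ∩ B u' ⊆ cls σ u ∪ cls σ u' ∨ A u' ∩ B u ⊆ cls σ u ∪ cls σ u' := by
    by_contra hcon
    push Not at hcon
    obtain ⟨hc1, hc2⟩ := hcon
    rw [Finset.not_subset] at hc1 hc2
    obtain ⟨w, hw, hw'⟩ := hc1
    obtain ⟨w', hx, hx'⟩ := hc2
    rw [Finset.mem_inter, hAm, hBm] at hw hx
    rw [Finset.mem_union, hcls, hcls] at hw' hx'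
    push Not at hw' hx'
    exact four hSWM hSW4 D σ ho u u' w w' huu hw.1 hw.2 hx.1 hx.2 hw'.1 hx'.1 hw'.2 hx'.2
  have eA : (Finset.univ.filter (fun w => D u (σ w) ∧ D u' (σ w))) = A u ∩ A u' := by
    ext w
    rw [Finset.mem_inter, hAm, hAm]
    simp
  have eB : (Finset.univ.filter (fun w => D w (σ u) ∧ D w (σ u'))) = B u ∩ B u' := by
    ext w
    rw [Finset.mem_inter, hBm, hBm]
    simp
  rw [eA, eB]
  rcases hdich with hd | hd
  · have h1 : ((A u ∩ B u').card : ℝ) ≤ 2 * θ * Fintype.card V := by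
      have : ((A u ∩ B u').card : ℝ) ≤ (cls σ u ∪ cls σ u').card := by
        exact_mod_cast Finset.card_le_card hd
      exact this.trans hun
    have h2 := cnt (A u) (A u') (B u') _ _ _ (hAc u) (hAc u') (hBc u') h1 hAu'
    rw [Finset.inter_comm (A u) (B u)] at hAu
    rw [Finset.inter_comm (A u) (B u')] at h1
    have h3 := cnt (B u) (B u') (A u) _ _ _ (hBc u) (hBc u') (hAc u) hAu h1
    constructor
    · linarith
    · linarith
  · have h1 : ((A u' ∩ B u).card : ℝ) ≤ 2 * θ * Fintype.card V := by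
      have : ((A u' ∩ B u).card : ℝ) ≤ (cls σ u ∪ cls σ u').card := by
        exact_mod_cast Finset.card_le_card hd
      exact this.trans hun
    have h2 := cnt (A u) (A u') (B u) _ _ _ (hAc u) (hAc u') (hBc u) hAu h1
    rw [Finset.inter_comm (A u') (B u')] at hAu'
    rw [Finset.inter_comm (A u') (B u)] at h1
    have h3 := cnt (B u) (B u') (A u') _ _ _ (hBc u) (hBc u') (hAc u') h1 hAu'
    constructor
    · linarith
    · linarith

end Pool.Agent.W85.DH
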